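import Pool.Agent.helper64.OT.SpecG

/-! Row M4S of project OT (MP_f6e9a2_nt). -/

set_option autoImplicit false

namespace Pool.Agent.OG

open Finset Pool.Agent.OT Pool.Agent.SPI Pool.Agent.helper85.PG
open scoped Pointwise

theorem M4S (hMGS : MGS_stmt) (hDLS : DLS_stmt) (hSMS : SMS_stmt) : M4S_stmt := by
  intro p hpr χ T D hχ hp hT hD hTD
  have h1 := hMGS p χ T hχ hT
  have h2 := hSMS p T D hp hT hD hTD
  have hpp : (0 : ℝ) < p := Nat.cast_pos.2 hpr.out.pos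
  have hN0 : 0 ≤ (p : ℝ) / T.card := div_nonneg hpp.le (Nat.cast_nonneg _)
  have h3 : ∑ lam ∈ univ.filter (fun lam : ZMod p => lam ≠ 0 ∧ lam ≠ 1), |nS T lam - ((p : ℝ) / T.card) ^ 4 / p| ≤
      ∑ lam : ZMod p, |DSS T lam| := by
    have e : ∀ lam ∈ univ.filter (fun lam : ZMod p => lam ≠ 0 ∧ lam ≠ 1),
        |nS T lam - ((p : ℝ) / T.card) ^ 4 / p| = |DSS T lam| := by
      intro lam hlam
      have h4 := (mem_filter.1 hlam).2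
      rw [hDLS p T hp hT lam h4.1 h4.2]
    rw [sum_congr rfl e]
    exact sum_le_sum_of_subset_of_nonneg (filter_subset _ _) (fun _ _ _ => abs_nonneg _)
  have h4 : (∑ lam : ZMod p, |DSS T lam|) ^ 2 ≤ p * ∑ lam : ZMod p, DSS T lam ^ 2 := by
    have h5 := sq_sum_le_card_mul_sum_sq (s := (univ : Finset (ZMod p))) (f := fun lam => |DSS T lam|)
    simp only [sq_abs] at h5
    rw [card_univ, ZMod.card] at h5
    exact h5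
  obtain ⟨N, hN⟩ : ∃ N : ℝ, N = (p : ℝ) / T.card := ⟨_, rfl⟩
  rw [← hN] at hN0 h1 h2 h3 ⊢
  obtain ⟨q, hq⟩ : ∃ q : ℝ, q = (p : ℝ) ^ (1 / 4 : ℝ) := ⟨_, rfl⟩
  have hq0 : 0 < q := by
    rw [hq]
    exact Real.rpow_pos_of_pos hpp _
  have hq4 : q ^ 4 = p := by
    rw [hq, ← Real.rpow_natCast, ← Real.rpow_mul hpp.le]
    norm_num
  have hq2 : Real.sqrt p = q ^ 2 := by
    rw [← hq4, show q ^ 4 = (q ^ 2) ^ 2 by ring]
    exact Real.sqrt_sq (by positivity)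
  have hq11 : (p : ℝ) ^ (11 / 4 : ℝ) = q ^ 11 := by
    rw [hq, ← Real.rpow_natCast, ← Real.rpow_mul hpp.le]
    norm_num
  obtain ⟨S, hS⟩ : ∃ S : ℝ, S = ∑ lam : ZMod p, |DSS T lam| := ⟨_, rfl⟩
  obtain ⟨U, hU⟩ : ∃ U : ℝ, U = ∑ lam ∈ univ.filter (fun lam : ZMod p => lam ≠ 0 ∧ lam ≠ 1), |nS T lam - N ^ 4 / p| := ⟨_, rfl⟩
  rw [← hS] at h3 h4
  rw [← hU] at h1 h3
  rw [hq2, ← hq4] at h2
  rw [← hq4] at h4 h1
  rw [hq11, ← hq4]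
  have h6 : S ^ 2 ≤ (2 * N * q ^ 7 + (4 + D) * N ^ 2 * q ^ 4) ^ 2 := by
    have h7 : q ^ 4 * ∑ lam : ZMod p, DSS T lam ^ 2 ≤
        q ^ 4 * (4 * N ^ 2 * (q ^ 4) ^ 2 * q ^ 2 + (16 + 4 * D) * N ^ 4 * q ^ 4) :=
      mul_le_mul_of_nonneg_left h2 (by positivity)
    have h8 : 0 ≤ 4 * (4 + D) * N ^ 3 * q ^ 11 + (4 * D + D ^ 2) * N ^ 4 * q ^ 8 := by positivity
    have h9 : (2 * N * q ^ 7 + (4 + D) * N ^ 2 * q ^ 4) ^ 2 =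
        q ^ 4 * (4 * N ^ 2 * (q ^ 4) ^ 2 * q ^ 2 + (16 + 4 * D) * N ^ 4 * q ^ 4) +
          (4 * (4 + D) * N ^ 3 * q ^ 11 + (4 * D + D ^ 2) * N ^ 4 * q ^ 8) := by ring
    rw [h9]
    linarith [h4, h7, h8]
  have h9 : S ≤ 2 * N * q ^ 7 + (4 + D) * N ^ 2 * q ^ 4 := by
    have h10 : 0 ≤ 2 * N * q ^ 7 + (4 + D) * N ^ 2 * q ^ 4 := by positivity
    exact abs_le_of_sq_le_sq' h6 h10 |>.2
  have h11 : q ^ 4 * U ≤ q ^ 4 * (2 * N * q ^ 7 + (4 + D) * N ^ 2 * q ^ 4) :=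
    mul_le_mul_of_nonneg_left (h3.trans h9) (by positivity)
  have h12 : 0 ≤ (112 + 4 * D) * (N * q ^ 11) := by positivity
  have h13 : 0 ≤ 4 * (N ^ 2 * q ^ 8) := by positivity
  have h14 : (120 + 4 * D) * (N ^ 2 * (q ^ 4) ^ 2 + N * q ^ 11) =
      4 * (q ^ 4 * (2 * N * q ^ 7 + (4 + D) * N ^ 2 * q ^ 4)) + 100 * N ^ 2 * (q ^ 4) ^ 2 +
        ((112 + 4 * D) * (N * q ^ 11) + 4 * (N ^ 2 * q ^ 8)) := by ring
  rw [h14]
  refine h1.trans ?_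
  linarith [h11, h12, h13]

end Pool.Agent.OG
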