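import Pool.Agent.helper35.OT.Spec

set_option autoImplicit false

namespace Pool.Agent.helper35.OT

open Finset

lemma LIO_aeval {F : Type} [Field F] [CharZero F] (φ : F →+* ℝ) (L : Polynomial ℤ) (y : F) :
    φ (Polynomial.aeval y L) = (L.map (Int.castRingHom ℝ)).eval (φ y) := by
  rw [Polynomial.aeval_def, Polynomial.hom_eval₂, Polynomial.eval_map]
  congr 1
  exact RingHom.ext_int _ _

lemma LIO_int {F : Type} [Field F] (k : ℕ) (e : ℕ → ℕ → ℤ) (Q x z : F) (hQ : IsIntegral ℤ Q)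
    (hx : IsIntegral ℤ (Q * x)) (hz : IsIntegral ℤ (Q * z)) :
    IsIntegral ℤ (Q ^ (2 * k) * ∑ i ∈ range (k + 1), ∑ j ∈ range (k + 1), (e i j : F) * x ^ i * z ^ j) := by
  rw [mul_sum]
  refine IsIntegral.sum _ fun i hi => ?_
  rw [mul_sum]
  refine IsIntegral.sum _ fun j hj => ?_
  have hi' := mem_range.1 hi
  have hj' := mem_range.1 hj
  have h1 : Q ^ (2 * k) * ((e i j : F) * x ^ i * z ^ j) =
      (e i j : F) * (Q * x) ^ i * (Q * z) ^ j * Q ^ (2 * k - i - j) := by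
    have h2 : Q ^ (2 * k) = Q ^ i * Q ^ j * Q ^ (2 * k - i - j) := by
      rw [← pow_add, ← pow_add]
      congr 1
      omega
    rw [h2, mul_pow, mul_pow]
    ring
  rw [h1]
  have h3 : IsIntegral ℤ ((e i j : ℤ) : F) := by
    have := isIntegral_algebraMap (R := ℤ) (A := F) (x := e i j)
    simpa using this
  exact ((h3.mul (hx.pow _)).mul (hz.pow _)).mul (hQ.pow _)

lemma LIO_norm (k : ℕ) (e : ℕ → ℕ → ℤ) (E b : ℝ) (hE : ∀ i ∈ range (k + 1), ∀ j ∈ range (k + 1), |(e i j : ℝ)| ≤ E)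
    (hE0 : 0 ≤ E) (hb : 1 ≤ b) (x z : ℂ) (hx : ‖x‖ ≤ b) (hz : ‖z‖ ≤ b) :
    ‖∑ i ∈ range (k + 1), ∑ j ∈ range (k + 1), (e i j : ℂ) * x ^ i * z ^ j‖ ≤ (k + 1) ^ 2 * E * b ^ (2 * k) := by
  have h1 : ∀ i ∈ range (k + 1), ∀ j ∈ range (k + 1), ‖(e i j : ℂ) * x ^ i * z ^ j‖ ≤ E * b ^ (2 * k) := by
    intro i hi j hj
    have hi' := mem_range.1 hi
    have hj' := mem_range.1 hj
    rw [norm_mul, norm_mul, norm_pow, norm_pow, mul_assoc]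
    have h2 : ‖(e i j : ℂ)‖ = |(e i j : ℝ)| := by
      rw [Complex.norm_intCast]
    rw [h2]
    have h3 : ‖x‖ ^ i * ‖z‖ ^ j ≤ b ^ (2 * k) := by
      calc ‖x‖ ^ i * ‖z‖ ^ j ≤ b ^ i * b ^ j := by gcongr
        _ = b ^ (i + j) := (pow_add _ _ _).symm
        _ ≤ b ^ (2 * k) := pow_le_pow_right₀ hb (by omega)
    exact mul_le_mul (hE i hi j hj) h3 (by positivity) hE0
  calc ‖∑ i ∈ range (k + 1), ∑ j ∈ range (k + 1), (e i j : ℂ) * x ^ i * z ^ j‖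
      ≤ ∑ i ∈ range (k + 1), ‖∑ j ∈ range (k + 1), (e i j : ℂ) * x ^ i * z ^ j‖ := norm_sum_le _ _
    _ ≤ ∑ i ∈ range (k + 1), ∑ j ∈ range (k + 1), ‖(e i j : ℂ) * x ^ i * z ^ j‖ :=
        sum_le_sum fun i _ => norm_sum_le _ _
    _ ≤ ∑ i ∈ range (k + 1), ∑ j ∈ range (k + 1), E * b ^ (2 * k) :=
        sum_le_sum fun i hi => sum_le_sum fun j hj => h1 i hi j hj
    _ = (k + 1) ^ 2 * E * b ^ (2 * k) := by
        rw [sum_const, sum_const, card_range, nsmul_eq_mul, nsmul_eq_mul]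
        push_cast
        ring

theorem LIO (hNRM : NRM_stmt) (hSEQ : SEQ_stmt) : LIO_stmt := by
  intro ρ c L z hρ hc hL hz0 hz
  let F := IntermediateField.adjoin ℚ {ρ}
  have hfd : FiniteDimensional ℚ F := IntermediateField.adjoin.finiteDimensional hρ.isIntegral
  have hNF : NumberField F := { to_charZero := inferInstance, to_finiteDimensional := hfd }
  obtain ⟨φ, hφ⟩ : ∃ φ : F →+* ℝ, ∀ y : F, φ y = (y : ℝ) := ⟨algebraMap F ℝ, fun _ => rfl⟩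
  obtain ⟨x, hx⟩ : ∃ x : F, φ x = ρ :=
    ⟨⟨ρ, IntermediateField.mem_adjoin_simple_self ℚ ρ⟩, hφ _⟩
  have hcF : (c : F) ≠ 0 := Nat.cast_ne_zero.2 (by omega)
  have hcR : (c : ℝ) ≠ 0 := Nat.cast_ne_zero.2 (by omega)
  obtain ⟨w, hw0, hw⟩ : ∃ w : ℕ → F, w 0 = 0 ∧ ∀ n, w (n + 1) = (w n ^ 2 - Polynomial.aeval (x ^ 2 ^ n) L) / c :=
    ⟨fun n => Nat.rec 0 (fun n y => (y ^ 2 - Polynomial.aeval (x ^ 2 ^ n) L) / c) n, rfl, fun _ => rfl⟩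
  have hφw : ∀ n, φ (w n) = z n := by
    intro n
    induction n with
    | zero => rw [hw0, map_zero, hz0]
    | succ n ih =>
      rw [hw, map_div₀, map_sub, map_pow, ih, LIO_aeval, map_pow, hx, map_natCast, ← hz n]
      field_simp
  obtain ⟨q, B, hq, hB, hqB⟩ := hSEQ F x c L w hc hL hw0 (fun n => by rw [hw]; field_simp)
  have hD : 0 < Module.finrank ℚ F := Module.finrank_pos
  have hqr : (1 : ℝ) ≤ q := by exact_mod_cast hq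
  have hBr : (1 : ℝ) ≤ B := by exact_mod_cast hB
  have hqB1 : (1 : ℝ) ≤ (q : ℝ) * B := one_le_mul_of_one_le_of_one_le hqr hBr
  refine ⟨((q : ℝ) * B) ^ (2 * Module.finrank ℚ F), one_le_pow₀ hqB1, fun k e => ?_⟩
  obtain ⟨E, hE1, hE⟩ : ∃ E : ℝ, 1 ≤ E ∧ ∀ i ∈ range (k + 1), ∀ j ∈ range (k + 1), |(e i j : ℝ)| ≤ E := by
    refine ⟨1 + ∑ i ∈ range (k + 1), ∑ j ∈ range (k + 1), |(e i j : ℝ)|, ?_, fun i hi j hj => ?_⟩
    · have : 0 ≤ ∑ i ∈ range (k + 1), ∑ j ∈ range (k + 1), |(e i j : ℝ)| :=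
        sum_nonneg fun i _ => sum_nonneg fun j _ => abs_nonneg _
      linarith
    · have h1 : |(e i j : ℝ)| ≤ ∑ j ∈ range (k + 1), |(e i j : ℝ)| :=
        single_le_sum (f := fun j => |(e i j : ℝ)|) (fun j _ => abs_nonneg _) hj
      have h2 : ∑ j ∈ range (k + 1), |(e i j : ℝ)| ≤ ∑ i ∈ range (k + 1), ∑ j ∈ range (k + 1), |(e i j : ℝ)| :=
        single_le_sum (f := fun i => ∑ j ∈ range (k + 1), |(e i j : ℝ)|)
          (fun i _ => sum_nonneg fun j _ => abs_nonneg _) hi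
      linarith
  have hkE : (1 : ℝ) ≤ (k + 1) ^ 2 * E := by
    have : (1 : ℝ) ≤ (k + 1) ^ 2 := one_le_pow₀ (by have : (0 : ℝ) ≤ k := Nat.cast_nonneg k; linarith)
    exact one_le_mul_of_one_le_of_one_le this hE1
  refine ⟨1 / ((k + 1) ^ 2 * E) ^ Module.finrank ℚ F, by positivity, fun n hne => ?_⟩
  obtain ⟨hix, hiz, hσ⟩ := hqB n
  obtain ⟨v, hv⟩ : ∃ v : F, v = ∑ i ∈ range (k + 1), ∑ j ∈ range (k + 1), (e i j : F) * (x ^ 2 ^ n) ^ i * (w n) ^ j :=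
    ⟨_, rfl⟩
  have hφv : φ v = val k e (ρ ^ 2 ^ n) (z n) := by
    rw [hv, val, map_sum]
    refine sum_congr rfl fun i _ => ?_
    rw [map_sum]
    refine sum_congr rfl fun j _ => ?_
    rw [map_mul, map_mul, map_pow, map_pow, map_pow, map_intCast, hx, hφw]
  have hqi : IsIntegral ℤ ((q : F) ^ 2 ^ n) := by
    have h1 : IsIntegral ℤ ((q : ℤ) : F) := by
      have := isIntegral_algebraMap (R := ℤ) (A := F) (x := (q : ℤ))
      simpa using this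
    rw [Int.cast_natCast] at h1
    exact h1.pow _
  have hη := LIO_int k e ((q : F) ^ 2 ^ n) (x ^ 2 ^ n) (w n) hqi hix hiz
  rw [← hv] at hη
  have hq0 : (q : F) ≠ 0 := Nat.cast_ne_zero.2 (by omega)
  have hv0 : v ≠ 0 := by
    rintro h
    rw [h, map_zero] at hφv
    exact hne hφv.symm
  have hη0 : ((q : F) ^ 2 ^ n) ^ (2 * k) * v ≠ 0 := mul_ne_zero (pow_ne_zero _ (pow_ne_zero _ hq0)) hv0
  obtain ⟨H, hH⟩ : ∃ H : ℝ, H = (k + 1) ^ 2 * E * ((q : ℝ) * B) ^ (2 * k * 2 ^ n) := ⟨_, rfl⟩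
  have hqBp : (1 : ℝ) ≤ ((q : ℝ) * B) ^ (2 * k * 2 ^ n) := one_le_pow₀ hqB1
  have hH1 : 1 ≤ H := by
    rw [hH]
    exact one_le_mul_of_one_le_of_one_le hkE hqBp
  have hnorm : ∀ σ : F →+* ℂ, ‖σ (((q : F) ^ 2 ^ n) ^ (2 * k) * v)‖ ≤ H := by
    intro σ
    obtain ⟨h1, h2⟩ := hσ σ
    have h3 := LIO_norm k e E ((B : ℝ) ^ 2 ^ n) hE (by linarith) (one_le_pow₀ hBr) (σ (x ^ 2 ^ n)) (σ (w n)) h1 h2
    have h4 : σ v = ∑ i ∈ range (k + 1), ∑ j ∈ range (k + 1), (e i j : ℂ) * (σ (x ^ 2 ^ n)) ^ i * (σ (w n)) ^ j := by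
      rw [hv, map_sum]
      refine sum_congr rfl fun i _ => ?_
      rw [map_sum]
      refine sum_congr rfl fun j _ => ?_
      rw [map_mul, map_mul, map_pow σ (x ^ 2 ^ n) i, map_pow σ (w n) j, map_intCast]
    rw [map_mul, norm_mul, h4, map_pow, map_pow, map_natCast, norm_pow, norm_pow, Complex.norm_natCast, hH]
    calc ((q : ℝ) ^ 2 ^ n) ^ (2 * k) * ‖∑ i ∈ range (k + 1), ∑ j ∈ range (k + 1), (e i j : ℂ) * (σ (x ^ 2 ^ n)) ^ i * (σ (w n)) ^ j‖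
        ≤ ((q : ℝ) ^ 2 ^ n) ^ (2 * k) * ((k + 1) ^ 2 * E * ((B : ℝ) ^ 2 ^ n) ^ (2 * k)) := by gcongr
      _ = (k + 1) ^ 2 * E * ((q : ℝ) * B) ^ (2 * k * 2 ^ n) := by
        rw [← pow_mul, ← pow_mul, mul_pow, mul_comm (2 ^ n) (2 * k)]
        ring
  have hmain := hNRM F φ _ H hη hη0 hH1 hnorm
  rw [map_mul, hφv, map_pow, map_pow, map_natCast, abs_mul, abs_of_nonneg (by positivity : (0 : ℝ) ≤ ((q : ℝ) ^ 2 ^ n) ^ (2 * k))] at hmain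
  have hqH : ((q : ℝ) ^ 2 ^ n) ^ (2 * k) ≤ H := by
    rw [hH, ← pow_mul, mul_pow, mul_comm (2 ^ n) (2 * k)]
    have h5 : (1 : ℝ) ≤ (B : ℝ) ^ (2 * k * 2 ^ n) := one_le_pow₀ hBr
    have h6 : (0 : ℝ) ≤ (q : ℝ) ^ (2 * k * 2 ^ n) := by positivity
    calc (q : ℝ) ^ (2 * k * 2 ^ n) = 1 * ((q : ℝ) ^ (2 * k * 2 ^ n) * 1) := by ring
      _ ≤ (k + 1) ^ 2 * E * ((q : ℝ) ^ (2 * k * 2 ^ n) * (B : ℝ) ^ (2 * k * 2 ^ n)) := by gcongr
  have hfin : 1 ≤ |val k e (ρ ^ 2 ^ n) (z n)| * H ^ Module.finrank ℚ F := by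
    obtain ⟨d, hd⟩ : ∃ d, Module.finrank ℚ F = d + 1 := ⟨Module.finrank ℚ F - 1, by omega⟩
    rw [hd, Nat.add_sub_cancel] at hmain
    rw [hd, pow_succ]
    have h7 : (0 : ℝ) ≤ H ^ d := by positivity
    calc (1 : ℝ) ≤ ((q : ℝ) ^ 2 ^ n) ^ (2 * k) * |val k e (ρ ^ 2 ^ n) (z n)| * H ^ d := hmain
      _ ≤ H * |val k e (ρ ^ 2 ^ n) (z n)| * H ^ d := by gcongr
      _ = |val k e (ρ ^ 2 ^ n) (z n)| * (H ^ d * H) := by ring
  have hHD : H ^ Module.finrank ℚ F = ((k + 1) ^ 2 * E) ^ Module.finrank ℚ F *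
      (((q : ℝ) * B) ^ (2 * Module.finrank ℚ F)) ^ (k * 2 ^ n) := by
    rw [hH, mul_pow, ← pow_mul, ← pow_mul]
    congr 2
    ring
  rw [hHD] at hfin
  rw [div_le_iff₀ (by positivity)]
  calc (1 : ℝ) ≤ _ := hfin
    _ = _ := by ring

end Pool.Agent.helper35.OT
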